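import Pool.Agent.Y958.SP.Stm3

set_option autoImplicit false

/-! # Choice of the parameters (helper of the project SP) -/

namespace Pool.Agent.Y331.SP

theorem park : Pool.Agent.Y958.SP.PARK := by
  intro κ g hκ hg
  set lam : ℝ := 1 + 4 * (g + 3) / κ with hlam
  have hlam1 : 1 ≤ lam := by
    have : 0 ≤ 4 * (g + 3) / κ := by positivity
    linarith
  have hlam0 : 0 < lam := by linarith
  have hlog : 0 ≤ Real.log lam := Real.log_nonneg hlam1
  refine ⟨κ / (128 * (g ^ 2 + 1) * (1 + Real.log lam)), by positivity, lam, hlam1, ?_⟩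
  intro N J hN hJ
  have hN0 : (0 : ℝ) < N := by
    have : (2 : ℝ) ≤ N := by exact_mod_cast hN
    linarith
  have hL2 : (0.6931471803 : ℝ) < Real.log 2 := Real.log_two_gt_d9
  have hL : Real.log 2 ≤ Real.log N := by
    apply Real.log_le_log (by norm_num)
    exact_mod_cast hN
  have he : Real.log (Real.exp 1 * lam) = 1 + Real.log lam := by
    rw [Real.log_mul (Real.exp_pos 1).ne' hlam0.ne', Real.log_exp]
  rw [Real.rpow_def_of_pos (by positivity), Real.rpow_def_of_pos hN0, ← Real.exp_add, he]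
  apply Real.exp_le_exp.mpr
  have h1 : (1 + Real.log lam) * (16 * (g ^ 2 + 1) *
      (κ / (128 * (g ^ 2 + 1) * (1 + Real.log lam)) * (J + 1))) = κ * (J + 1) / 8 := by
    field_simp
    ring
  have h2 : κ * ((J : ℝ) + 1) / 8 ≤ κ * Real.log N / 2 := by
    have a1 : (J : ℝ) + 1 ≤ 4 * Real.log N := by linarith
    have a2 := mul_le_mul_of_nonneg_left a1 hκ.le
    linarith
  have h3 : (J : ℝ) * (g + 3) / lam ≤ κ * Real.log N / 2 := by
    rw [div_le_iff₀ hlam0]
    have h5 : κ * lam = κ + 4 * (g + 3) := by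
      rw [hlam]
      field_simp
    have h6 : (J : ℝ) * (g + 3) ≤ 2 * Real.log N * (g + 3) :=
      mul_le_mul_of_nonneg_right hJ (by linarith)
    have h7 : κ * Real.log N / 2 * lam = Real.log N / 2 * (κ + 4 * (g + 3)) := by
      rw [← h5]
      ring
    rw [h7]
    have h8 : 0 ≤ Real.log N * κ := mul_nonneg (by linarith) hκ.le
    nlinarith
  rw [h1]
  linarith

end Pool.Agent.Y331.SP
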